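import Mathlib

/-!
# The inconjugate intersection number does not bound the number of prime divisors

For a prime `p`, the group `G = (F_p × F_p) ⋊ F_p^×` (scalar action) is solvable, and three
pairwise inconjugate maximal subgroups of index `p` intersect in the trivial group.
-/

set_option autoImplicit false

namespace Pool.Agent.Results.MP_c68965_al.UnboundedPrimes

/-- A family `M 0, …, M (k - 1)` of maximal subgroups of `G` that are pairwise inconjugate in `G`
and intersect in the Frattini subgroup of `G`. -/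
def IsInconjugateFamily (G : Type) [Group G] (k : ℕ) (M : Fin k → Subgroup G) : Prop :=
  (∀ i, IsCoatom (M i)) ∧
  (∀ i j, i ≠ j → ∀ g : G, (M i).map (MulAut.conj g).toMonoidHom ≠ M j) ∧
  (⨅ i, M i) = frattini G

/-- The inconjugate intersection number of `G`: the least `k ≥ 1` such that some `k` pairwise
inconjugate maximal subgroups of `G` intersect in the Frattini subgroup, and `⊤` if there is no
such `k`. -/
noncomputable def iotaHat (G : Type) [Group G] : ℕ∞ :=
  sInf {n : ℕ∞ | ∃ k : ℕ, 1 ≤ k ∧ n = k ∧ ∃ M : Fin k → Subgroup G, IsInconjugateFamily G k M}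

/-- The affine group of pairs `(v, u)`, `v ∈ F_p × F_p`, `u ∈ F_p^×`. -/
@[ext] structure Aff (p : ℕ) where
  v : ZMod p × ZMod p
  u : (ZMod p)ˣ

namespace Aff

variable {p : ℕ}

instance : Mul (Aff p) := ⟨fun a b => ⟨a.v + (a.u : ZMod p) • b.v, a.u * b.u⟩⟩
instance : One (Aff p) := ⟨⟨0, 1⟩⟩
instance : Inv (Aff p) := ⟨fun a => ⟨-(((a.u⁻¹ : (ZMod p)ˣ) : ZMod p) • a.v), a.u⁻¹⟩⟩

@[simp] lemma mul_v (a b : Aff p) : (a * b).v = a.v + (a.u : ZMod p) • b.v := rfl
@[simp] lemma mul_u (a b : Aff p) : (a * b).u = a.u * b.u := rfl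
@[simp] lemma one_v : (1 : Aff p).v = 0 := rfl
@[simp] lemma one_u : (1 : Aff p).u = 1 := rfl
@[simp] lemma inv_v (a : Aff p) : (a⁻¹).v = -(((a.u⁻¹ : (ZMod p)ˣ) : ZMod p) • a.v) := rfl
@[simp] lemma inv_u (a : Aff p) : (a⁻¹).u = a.u⁻¹ := rfl

instance : Group (Aff p) :=
  Group.ofLeftAxioms
    (by
      intro a b c
      ext
      · simp [mul_assoc, add_assoc]
      · simp [mul_assoc, add_assoc]
      · simp [mul_assoc])
    (by intro a; ext <;> simp)
    (by intro a; ext <;> simp)

def equiv (p : ℕ) : Aff p ≃ (ZMod p × ZMod p) × (ZMod p)ˣ where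
  toFun a := (a.v, a.u)
  invFun a := ⟨a.1, a.2⟩
  left_inv _ := rfl
  right_inv _ := rfl

/-- The projection to the scalars. -/
def proj (p : ℕ) : Aff p →* (ZMod p)ˣ where
  toFun a := a.u
  map_one' := rfl
  map_mul' _ _ := rfl

/-- The translations. -/
def trans (p : ℕ) : Multiplicative (ZMod p × ZMod p) →* Aff p where
  toFun v := ⟨v.toAdd, 1⟩
  map_one' := rfl
  map_mul' a b := by ext <;> simp

instance : Group.IsSolvable (Aff p) := by
  refine Group.isSolvable_of_ker_le_range (trans p) (proj p) ?_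
  intro a ha
  refine ⟨Multiplicative.ofAdd a.v, ?_⟩
  have h : a.u = 1 := ha
  ext <;> simp [trans, h]

/-- The stabilizer of the point `c` in the action `x ↦ u x + (r v.1 + s v.2)` on `F_p`. -/
def stab (p : ℕ) (r s c : ZMod p) : Subgroup (Aff p) where
  carrier := {a | (a.u : ZMod p) * c + (r * a.v.1 + s * a.v.2) = c}
  one_mem' := by simp
  mul_mem' := by
    intro a b ha hb
    simp only [Set.mem_ofPred_eq] at *
    simp only [mul_u, mul_v, Units.val_mul, Prod.fst_add, Prod.snd_add, Prod.smul_fst,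
      Prod.smul_snd, smul_eq_mul]
    linear_combination ha + (a.u : ZMod p) * hb
  inv_mem' := by
    intro a ha
    simp only [Set.mem_ofPred_eq] at *
    simp only [inv_u, inv_v, Prod.fst_neg, Prod.snd_neg, Prod.smul_fst, Prod.smul_snd,
      smul_eq_mul]
    have h : ((a.u⁻¹ : (ZMod p)ˣ) : ZMod p) * (a.u : ZMod p) = 1 := by simp
    linear_combination -((a.u⁻¹ : (ZMod p)ˣ) : ZMod p) * ha + c * h

lemma mem_stab {r s c : ZMod p} {a : Aff p} :
    a ∈ stab p r s c ↔ (a.u : ZMod p) * c + (r * a.v.1 + s * a.v.2) = c := Iff.rfl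

/-- The affine action on the line `F_p` whose stabilizers are the groups `stab`. -/
def act (r s : ZMod p) (a : Aff p) (x : ZMod p) : ZMod p :=
  (a.u : ZMod p) * x + (r * a.v.1 + s * a.v.2)

lemma act_mul (r s : ZMod p) (a b : Aff p) (x : ZMod p) :
    act r s (a * b) x = act r s a (act r s b x) := by
  simp only [act, mul_u, mul_v, Units.val_mul, Prod.fst_add, Prod.snd_add, Prod.smul_fst,
      Prod.smul_snd, smul_eq_mul]
  ring

lemma act_one (r s : ZMod p) (x : ZMod p) : act r s 1 x = x := by simp [act]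

lemma mem_stab_iff_act {r s c : ZMod p} {a : Aff p} : a ∈ stab p r s c ↔ act r s a c = c := Iff.rfl

variable [Fact p.Prime]

lemma exists_vec {r s : ZMod p} (h : r ≠ 0 ∨ s ≠ 0) (t : ZMod p) :
    ∃ v : ZMod p × ZMod p, r * v.1 + s * v.2 = t := by
  rcases h with h | h
  · exact ⟨(r⁻¹ * t, 0), by simp [h]⟩
  · exact ⟨(0, s⁻¹ * t), by simp [h]⟩

lemma isCoatom_stab {r s : ZMod p} (h : r ≠ 0 ∨ s ≠ 0) (c : ZMod p) :
    IsCoatom (stab p r s c) := by
  constructor
  · intro htop
    obtain ⟨v, hv⟩ := exists_vec h 1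
    have : (⟨v, 1⟩ : Aff p) ∈ stab p r s c := by rw [htop]; trivial
    rw [mem_stab] at this
    simp only [Units.val_one, one_mul] at this
    rw [hv] at this
    have h1 : (1 : ZMod p) = 0 := by linear_combination this
    exact one_ne_zero h1
  · intro K hK
    obtain ⟨hle, k, hkK, hk⟩ := SetLike.lt_iff_le_and_exists.mp hK
    rw [eq_top_iff]
    intro g _
    by_cases hg : g ∈ stab p r s c
    · exact hle hg
    · rw [mem_stab_iff_act] at hk hg
      set c' := act r s k c with hc'
      set c'' := act r s g c with hc''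
      have hne : c' - c ≠ 0 := sub_ne_zero.mpr hk
      have hne' : c'' - c ≠ 0 := sub_ne_zero.mpr hg
      -- the unit moving `c'` to `c''`
      let u : (ZMod p)ˣ := Units.mk0 ((c'' - c) / (c' - c)) (div_ne_zero hne' hne)
      have hu : (u : ZMod p) * (c' - c) = c'' - c := by
        simp only [u, Units.val_mk0]
        field_simp
      obtain ⟨v, hv⟩ := exists_vec h ((1 - (u : ZMod p)) * c)
      let m : Aff p := ⟨v, u⟩
      have hm : m ∈ stab p r s c := by
        rw [mem_stab]
        simp only [m]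
        rw [hv]; ring
      have hmc' : act r s m c' = c'' := by
        simp only [act, m]
        rw [hv]
        linear_combination hu
      have h2 : g⁻¹ * (m * k) ∈ stab p r s c := by
        rw [mem_stab_iff_act, act_mul, act_mul, ← hc', hmc', hc'', ← act_mul, inv_mul_cancel,
          act_one]
      have h3 : g⁻¹ * (m * k) ∈ K := hle h2
      have h4 : m * k ∈ K := K.mul_mem (hle hm) hkK
      have h5 : g⁻¹ ∈ K := by
        have := K.mul_mem h3 (K.inv_mem h4)
        rwa [mul_inv_cancel_right] at this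
      exact (K.inv_mem_iff).mp h5

/-- Stabilizers for non-proportional functionals are inconjugate. -/
lemma not_conj {r s c r' s' c' : ZMod p} (v : ZMod p × ZMod p) (hv : r * v.1 + s * v.2 = 0)
    (hv' : r' * v.1 + s' * v.2 ≠ 0) (g : Aff p) :
    (stab p r s c).map (MulAut.conj g).toMonoidHom ≠ stab p r' s' c' := by
  intro h
  have h1 : (⟨v, 1⟩ : Aff p) ∈ stab p r s c := by
    rw [mem_stab]; simp [hv]
  have h2 : g * ⟨v, 1⟩ * g⁻¹ ∈ stab p r' s' c' := by
    rw [← h]
    exact ⟨_, h1, rfl⟩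
  rw [mem_stab] at h2
  have hu : ((g.u : (ZMod p)ˣ) : ZMod p) * ((g.u⁻¹ : (ZMod p)ˣ) : ZMod p) = 1 :=
    Units.mul_inv g.u
  simp only [mul_u, mul_v, inv_u, inv_v, mul_one, mul_inv_cancel, Units.val_one, one_mul,
    Prod.fst_add, Prod.snd_add, Prod.smul_fst, Prod.smul_snd, smul_eq_mul, Prod.fst_neg,
    Prod.snd_neg] at h2
  have h3 : (g.u : ZMod p) * (r' * v.1 + s' * v.2) = 0 := by
    linear_combination h2 + (r' * g.v.1 + s' * g.v.2) * hu
  exact hv' ((mul_eq_zero.mp h3).resolve_left g.u.ne_zero)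

/-- Three maximal subgroups. -/
def fam (p : ℕ) : Fin 3 → Subgroup (Aff p) :=
  ![stab p 1 0 0, stab p 0 1 0, stab p 1 1 1]

lemma iInf_fam : (⨅ i, fam p i) = ⊥ := by
  rw [eq_bot_iff]
  intro a ha
  rw [Subgroup.mem_iInf] at ha
  have h0 : a ∈ stab p 1 0 0 := ha 0
  have h1 : a ∈ stab p 0 1 0 := ha 1
  have h2 : a ∈ stab p 1 1 1 := ha 2
  rw [mem_stab] at h0 h1 h2
  simp only [mul_zero, one_mul, zero_mul, add_zero, zero_add, mul_one] at h0 h1 h2
  rw [h0, h1, add_zero, add_zero] at h2
  rw [Subgroup.mem_bot]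
  ext
  · simpa using h0
  · simpa using h1
  · simpa using h2

lemma isFamily : IsInconjugateFamily (Aff p) 3 (fam p) := by
  have hco : ∀ i, IsCoatom (fam p i) := by
    intro i
    fin_cases i
    · exact isCoatom_stab (Or.inl one_ne_zero) 0
    · exact isCoatom_stab (Or.inr one_ne_zero) 0
    · exact isCoatom_stab (Or.inl one_ne_zero) 1
  refine ⟨hco, ?_, ?_⟩
  · intro i j hij g
    fin_cases i <;> fin_cases j
    · exact absurd rfl hij
    · exact not_conj (0, 1) (by simp) (by simp) g
    · exact not_conj (0, 1) (by simp) (by simp) g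
    · exact not_conj (1, 0) (by simp) (by simp) g
    · exact absurd rfl hij
    · exact not_conj (1, 0) (by simp) (by simp) g
    · exact not_conj (1, -1) (by simp) (by simp) g
    · exact not_conj (1, -1) (by simp) (by simp) g
    · exact absurd rfl hij
  · apply le_antisymm
    · rw [iInf_fam]; exact bot_le
    · refine le_iInf fun i => ?_
      exact frattini_le_coatom (hco i)

end Aff

lemma iotaHat_le {p : ℕ} [Fact p.Prime] : iotaHat (Aff p) ≤ 3 :=
  sInf_le ⟨3, by norm_num, by norm_num, Aff.fam p, Aff.isFamily⟩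

lemma card_aff {p : ℕ} [Fact p.Prime] : Nat.card (Aff p) = p * p * (p - 1) := by
  rw [Nat.card_congr (Aff.equiv p), Nat.card_prod, Nat.card_prod, Nat.card_zmod,
    Nat.card_eq_fintype_card, ZMod.card_units]

/-- There are finite solvable groups whose inconjugate intersection number is at most `3` and
whose orders have arbitrarily many prime divisors. -/
theorem result : ∀ n : ℕ, ∃ (G : Type) (_ : Group G) (_ : Finite G) (_ : Nontrivial G),
    Group.IsSolvable G ∧ iotaHat G ≤ 3 ∧ n ≤ (Nat.card G).primeFactors.card := by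
  intro n
  obtain ⟨t, ht, htn⟩ := Nat.infinite_setOfPred_prime.exists_subset_card_eq n
  have htp : ∀ q ∈ t, q.Prime := fun q hq => ht hq
  have hN : (∏ q ∈ t, q).primeFactors = t := Nat.primeFactors_prod htp
  have hN0 : (∏ q ∈ t, q) ≠ 0 := Finset.prod_ne_zero_iff.mpr fun q hq => (htp q hq).ne_zero
  obtain ⟨p, hp, hp2, hmod⟩ := Nat.exists_prime_gt_modEq_one (k := ∏ q ∈ t, q) 2 hN0
  haveI : Fact p.Prime := ⟨hp⟩
  have hcard := card_aff (p := p)
  have hfin : Finite (Aff p) := Finite.of_equiv _ (Aff.equiv p).symm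
  have hne : Nat.card (Aff p) ≠ 0 := Nat.card_pos.ne'
  refine ⟨Aff p, inferInstance, hfin, ⟨⟨⟨(1, 0), 1⟩, 1, ?_⟩⟩, inferInstance, iotaHat_le, ?_⟩
  · intro h
    have := congrArg (fun a => a.v.1) h
    simp at this
  · rw [← htn, ← hN]
    apply Finset.card_le_card
    apply Nat.primeFactors_mono _ hne
    rw [hcard]
    apply Dvd.dvd.mul_left
    exact (Nat.modEq_iff_dvd' hp.one_le).mp hmod.symm

end Pool.Agent.Results.MP_c68965_al.UnboundedPrimes
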